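import Pool.Agent.Lib.helper1.Ham
set_option autoImplicit false
open Finset SimpleGraph Pool.Agent.Lib.helper1
namespace Pool.Agent.H.MP_0a7691_co

def G (c n : ℕ) : SimpleGraph (Fin n) where
  Adj u v := u ≠ v ∧ ((u.1 < c ∧ u.1 % 2 = 0) ∨ (v.1 < c ∧ v.1 % 2 = 0) ∨ (c ≤ u.1 ∧ c ≤ v.1))
  symm := ⟨fun u v h => ⟨h.1.symm, by omega⟩⟩
  loopless := ⟨fun u h => h.1 rfl⟩

lemma ham (k m : ℕ) : (G (2 * k + 3) (m + 3)).IsHamiltonian := by
  have e : List.finRange (m + 3) = 0 :: (List.finRange (m + 2)).map Fin.succ := List.finRange_succ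
  refine isHamiltonian_of_list 0 ((List.finRange (m + 2)).map Fin.succ) ?_ ?_ (by simp) (by simp)
  · rw [← List.cons_append, ← e, List.isChain_append]
    refine ⟨?_, by simp, fun x hx y hy => ?_⟩
    · rw [List.isChain_iff_getElem]
      intro i hi
      simp only [List.getElem_finRange, G, ne_eq, Fin.ext_iff, Fin.val_cast]
      omega
    · simp only [List.head?_cons, Option.mem_def, Option.some.injEq] at hy
      subst hy
      have : x = Fin.last _ := by
        rw [List.finRange_succ_last] at hx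
        simpa using hx.symm
      subst this
      exact ⟨(Fin.last_pos (n := m + 2 - 1)).ne', Or.inr (Or.inl (by simp))⟩
  · have := List.nodup_finRange (m + 3)
    rw [e] at this
    exact (List.perm_append_singleton _ _).nodup_iff.2 this

lemma alpha (c n : ℕ) : (G c n).indepNum ≤ c + 1 := by
  obtain ⟨s, hs⟩ := (G c n).exists_isNIndepSet_indepNum
  rw [← hs.card_eq, ← card_range (c + 1)]
  refine card_le_card_of_injOn (fun v => min v.1 c) (fun v _ => by simp) fun u hu v hv e => ?_
  by_contra h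
  refine hs.isIndepSet hu hv h ⟨h, Or.inr (Or.inr ?_)⟩
  have : u.1 ≠ v.1 := fun e => h (Fin.ext e)
  simp only at e
  omega

lemma conn (k n : ℕ) (hn : 2 * k + 3 < n) (S : Finset (Fin n)) (hS : S.card < k) :
    ((G (2 * k + 3) n).induce ((↑S : Set (Fin n))ᶜ)).Connected := by
  obtain ⟨i, hi⟩ : ∃ i : Fin k, (⟨2 * i.1, by omega⟩ : Fin n) ∉ S := by
    by_contra! h
    have := card_le_card_of_injOn (s := (univ : Finset (Fin k))) (t := S)
      (fun i => (⟨2 * i.1, by omega⟩ : Fin n)) (fun i _ => h i) fun i _ j _ e => by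
        simp only [Fin.mk.injEq] at e
        exact Fin.ext (by omega)
    simp at this
    omega
  rw [connected_iff_exists_forall_reachable]
  refine ⟨⟨_, hi⟩, fun w => ?_⟩
  by_cases e : (⟨2 * i.1, by omega⟩ : Fin n) = w.1
  · exact (show (⟨_, hi⟩ : ((↑S : Set (Fin n))ᶜ : Set _)) = w from Subtype.ext e) ▸ Reachable.refl _
  · exact Adj.reachable ⟨e, Or.inl (show 2 * i.1 < _ ∧ 2 * i.1 % 2 = 0 by omega)⟩

lemma avoid (k n : ℕ) (hn : 2 * k + 3 < n) {u : Fin n} {p : (G (2 * k + 3) n).Walk u u}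
    (hp : p.IsHamiltonianCycle) : s((⟨0, by omega⟩ : Fin n), ⟨2, by omega⟩) ∉ p.edges := by
  intro h
  have d (v : Fin n) : ∑ w, ind p v w = 2 := by
    rw [Fin.sum_univ_def]
    exact ham_deg hp v _ (List.nodup_finRange n) fun w _ => List.mem_finRange w
  let S : Finset (Fin n) := univ.filter fun v => v.1 < 2 * k + 3 ∧ v.1 % 2 = 0
  let T : Finset (Fin n) := univ.filter fun v => v.1 < 2 * k + 3 ∧ v.1 % 2 = 1
  have c1 : S.card ≤ T.card + 1 := by
    have := card_le_card_of_injOn (s := S.erase ⟨0, by omega⟩) (t := T)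
      (fun v => (⟨v.1 - 1, by omega⟩ : Fin n)) (fun v hv => by
        simp only [coe_erase, Set.mem_sdiff, S, T, coe_filter, Set.mem_ofPred_eq, mem_univ, true_and,
          Set.mem_singleton_iff, Fin.ext_iff] at hv ⊢
        omega) fun v hv w hw e => by
        simp only [coe_erase, Set.mem_sdiff, S, coe_filter, Set.mem_ofPred_eq, mem_univ, true_and,
          Set.mem_singleton_iff, Fin.ext_iff] at hv hw e ⊢
        omega
    have := pred_card_le_card_erase (s := S) (a := ⟨0, by omega⟩)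
    omega
  have c2 : ∑ w, ∑ v ∈ S, ind p v w = 2 * S.card := by
    rw [sum_comm]; simp [d, mul_comm]
  have c3 : ∑ w ∈ T, ∑ v ∈ S, ind p v w = 2 * T.card := by
    rw [mul_comm 2 T.card, ← smul_eq_mul T.card, ← sum_const]
    refine sum_congr rfl fun w hw => ?_
    rw [sum_congr rfl fun v _ => ind_symm p v w]
    refine (sum_subset (subset_univ _) fun v _ hv => ind_eq_zero p fun a => ?_).trans (d w)
    have := a.2
    simp only [S, T, mem_filter, mem_univ, true_and] at hw hv
    omega
  obtain ⟨a, ha, b, hb, ab, e⟩ := ham_cut hp {v | v.1 < 2 * k + 3} (x := ⟨0, by omega⟩)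
    (y := ⟨2 * k + 3, hn⟩) (by simp) (by simp)
  simp only [Set.mem_ofPred_eq] at ha hb
  have aS : a ∈ S := by
    have := ab.2
    simp only [S, mem_filter, mem_univ, true_and]
    omega
  have i1 : ind p ⟨0, by omega⟩ ⟨2, by omega⟩ = 1 := if_pos h
  have c4 : ∑ w ∈ ({⟨0, by omega⟩, ⟨2, by omega⟩, b} : Finset (Fin n)), ∑ v ∈ S, ind p v w ≥ 3 := by
    rw [sum_insert (by simp [Fin.ext_iff]; omega), sum_insert (by simp [Fin.ext_iff]; omega),
      sum_singleton]
    have q1 := single_le_sum (f := fun v => ind p v ⟨0, by omega⟩) (s := S) (a := ⟨2, by omega⟩)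
      (fun _ _ => Nat.zero_le _) (by simp [S])
    have q2 := single_le_sum (f := fun v => ind p v ⟨2, by omega⟩) (s := S) (a := ⟨0, by omega⟩)
      (fun _ _ => Nat.zero_le _) (by simp [S])
    have q3 := single_le_sum (f := fun v => ind p v b) (fun _ _ => Nat.zero_le _) aS
    simp only [ind_symm p ⟨2, _⟩ ⟨0, _⟩, i1, e] at q1 q2 q3
    omega
  have c5 := sum_le_sum_of_subset (f := fun w => ∑ v ∈ S, ind p v w)
    (subset_univ (T ∪ {⟨0, by omega⟩, ⟨2, by omega⟩, b}))
  rw [sum_union (by
    rw [disjoint_right]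
    intro w hw
    simp only [mem_insert, mem_singleton, Fin.ext_iff, T, mem_filter, mem_univ, true_and] at hw ⊢
    omega)] at c5
  omega

theorem main (k : ℕ) (f : ℕ → ℕ)
    (h : ∀ (V : Type) [Fintype V] [DecidableEq V] (G : SimpleGraph V),
        Odd (Fintype.card V) →
        (k < Fintype.card V ∧
          ∀ S : Finset V, S.card < k → (G.induce ((↑S : Set V)ᶜ)).Connected) →
        G.IsHamiltonian →
        f G.indepNum ≤ Fintype.card V →
        Submodule.span (ZMod 2)
            {x : Sym2 V → ZMod 2 | ∃ (u : V) (p : G.Walk u u),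
              p.IsHamiltonianCycle ∧
                x = Set.indicator {e : Sym2 V | e ∈ p.edges} (fun _ => (1 : ZMod 2))} =
          Submodule.span (ZMod 2)
            {x : Sym2 V → ZMod 2 | ∃ (u : V) (p : G.Walk u u),
              p.IsCycle ∧
                x = Set.indicator {e : Sym2 V | e ∈ p.edges} (fun _ => (1 : ZMod 2))}) : False := by
  obtain ⟨N, hN⟩ : ∃ N, N = ∑ a ∈ range (2 * k + 5), f a := ⟨_, rfl⟩
  have hn : 2 * k + 3 < 2 * (N + k + 1) + 3 := by omega
  have := h (Fin (2 * (N + k + 1) + 3)) (G (2 * k + 3) _) (by simp; exact ⟨N + k + 2, by ring⟩)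
    ⟨by simp; omega, conn k _ hn⟩ (ham k _) (by
      have := single_le_sum (f := f) (s := range (2 * k + 5)) (fun _ _ => Nat.zero_le _)
        (mem_range.2 (Nat.lt_succ_of_le (alpha (2 * k + 3) (2 * (N + k + 1) + 3))))
      simp only [Fintype.card_fin]
      omega)
  generalize 2 * (N + k + 1) + 3 = n at hn this
  let a : Fin n := ⟨0, by omega⟩
  let b : Fin n := ⟨2, by omega⟩
  let c : Fin n := ⟨1, by omega⟩
  have ab : (G (2 * k + 3) n).Adj a b := ⟨by simp [a, b], Or.inl (by simp [a])⟩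
  have bc : (G (2 * k + 3) n).Adj b c := ⟨by simp [b, c], Or.inl (by simp [b])⟩
  have ca : (G (2 * k + 3) n).Adj c a := ⟨by simp [a, c], Or.inr (Or.inl (by simp [a]))⟩
  let q : (G (2 * k + 3) n).Walk a a := .cons ab (.cons bc (.cons ca .nil))
  have hq : q.IsCycle := by
    simp [q, Walk.isCycle_def, Walk.isTrail_def, a, b, c]
  have k1 := this.ge (Submodule.subset_span ⟨a, q, hq, rfl⟩)
  have k2 := (Submodule.span_le (p := LinearMap.ker (LinearMap.proj (R := ZMod 2)
    (φ := fun _ : Sym2 (Fin n) => ZMod 2) s(a, b)))).2 (by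
      rintro x ⟨u, p, hp, rfl⟩
      exact Set.indicator_of_notMem (M := ZMod 2) (s := {e | e ∈ p.edges}) (avoid k n hn hp) fun _ => 1) k1
  simp [q] at k2

end Pool.Agent.H.MP_0a7691_co
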